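import Pool.Agent.Helper40.CN.Spec

/-!
Part CANT: a continuous map with fewer than continuum many values is constant on some open set.
-/

set_option autoImplicit false

universe u

open Set Topology

namespace Pool.Agent.Helper33.CN

/-- A nonempty compact Hausdorff space without isolated points has at least continuum many
points. -/
theorem continuum_le {K : Type u} [TopologicalSpace K] [CompactSpace K] [T2Space K] [Nonempty K]
    (h : ∀ x : K, ¬ IsOpen ({x} : Set K)) : Cardinal.continuum ≤ Cardinal.mk K := by
  classical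
  have hper : Perfect (univ : Set K) := by
    refine ⟨isClosed_univ, fun x _ => ?_⟩
    have h1 : (𝓝[≠] x).NeBot := by
      rw [Filter.neBot_iff]
      intro h2
      exact h x ((isOpen_singleton_iff_punctured_nhds x).2 h2)
    unfold AccPt
    rw [Filter.principal_univ, inf_top_eq]
    exact h1
  have split : ∀ C : {C : Set K // Perfect C ∧ C.Nonempty},
      ∃ D : Bool → {C : Set K // Perfect C ∧ C.Nonempty},
        (∀ b, (D b).1 ⊆ C.1) ∧ Disjoint (D false).1 (D true).1 := by
    rintro ⟨C, hC, hne⟩
    obtain ⟨C0, C1, ⟨h0, n0, s0⟩, ⟨h1, n1, s1⟩, hd⟩ := hC.splitting hne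
    refine ⟨fun b => Bool.rec ⟨C0, h0, n0⟩ ⟨C1, h1, n1⟩ b, fun b => ?_, hd⟩
    cases b
    · exact s0
    · exact s1
  choose D hD1 hD2 using split
  let A' : List Bool → {C : Set K // Perfect C ∧ C.Nonempty} :=
    fun l => List.rec ⟨univ, hper, univ_nonempty⟩ (fun a _ ih => D ih a) l
  let A : List Bool → Set K := fun l => (A' l).1
  have hanti : ∀ l a, A (a :: l) ⊆ A l := fun l a => hD1 (A' l) a
  have hdisj : CantorScheme.Disjoint A := by
    intro l a b hab
    cases a <;> cases b
    · exact absurd rfl hab
    · exact hD2 (A' l)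
    · exact (hD2 (A' l)).symm
    · exact absurd rfl hab
  have hdom : ∀ x : ℕ → Bool, x ∈ (CantorScheme.inducedMap A).1 := by
    intro x
    change (⋂ n : ℕ, A (PiNat.res x n)).Nonempty
    apply IsCompact.nonempty_iInter_of_sequence_nonempty_isCompact_isClosed
    · intro i
      rw [PiNat.res_succ]
      exact hanti _ _
    · intro i
      exact (A' _).2.2
    · exact (A' (PiNat.res x 0)).2.1.closed.isCompact
    · intro i
      exact (A' _).2.1.closed
  have hinj : Function.Injective
      (fun x : ℕ → Bool => (CantorScheme.inducedMap A).2 ⟨x, hdom x⟩) := by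
    intro x y hxy
    have := hdisj.map_injective hxy
    exact congrArg Subtype.val this
  have hcard := Cardinal.mk_le_of_injective (α := ULift.{u} (ℕ → Bool)) (β := K)
    (f := fun x => (CantorScheme.inducedMap A).2 ⟨x.down, hdom x.down⟩)
    (fun x y hxy => ULift.down_injective (hinj hxy))
  rw [Cardinal.mk_uLift] at hcard
  have h2 : Cardinal.mk (ℕ → Bool) = Cardinal.continuum := by simp
  rw [h2, Cardinal.lift_continuum] at hcard
  exact hcard

theorem cant : Pool.Agent.Helper40.CN.S_CANT.{u} := by
  intro X _ _ _ _ _ Y _ _ E hE hcard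
  by_contra hcon
  push Not at hcon
  have hK : CompactSpace (range E) := isCompact_iff_compactSpace.1 (isCompact_range hE)
  have hne : Nonempty (range E) := (range_nonempty E).to_subtype
  refine absurd hcard (not_lt.2 (continuum_le ?_))
  rintro ⟨y, x, rfl⟩ hopen
  have h1 : IsOpen ((rangeFactorization E) ⁻¹' {⟨E x, x, rfl⟩}) :=
    hopen.preimage (hE.subtype_mk _)
  obtain ⟨z, hz, hz2⟩ := hcon _ h1 ⟨x, rfl⟩ (E x)
  apply hz2
  have := congrArg Subtype.val (mem_singleton_iff.1 hz)
  exact this

end Pool.Agent.Helper33.CN
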