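import Pool.Agent.Helper40.CN.Spec

/-!
Part CON: profinite groups with finitely many values.
-/

set_option autoImplicit false

universe u

open Set Topology

namespace Pool.Agent.Helper33.CN

open Pool.Agent.Helper40.CN

theorem map_lift' {G H : Type u} [Group G] [Group H] (f : G →* H) {k : ℕ} (g : Fin k → G)
    (w : FreeGroup (Fin k)) : f (FreeGroup.lift g w) = FreeGroup.lift (fun i => f (g i)) w := by
  have h : f.comp (FreeGroup.lift g) = FreeGroup.lift (fun i => f (g i)) := by
    ext i
    simp
  exact DFunLike.congr_fun h w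

theorem conj_mem {G : Type u} [Group G] {k : ℕ} (w : FreeGroup (Fin k)) {v : G}
    (hv : v ∈ wordValues w G) (x : G) : x * v * x⁻¹ ∈ wordValues w G := by
  obtain ⟨g, rfl⟩ := hv
  refine ⟨fun i => x * g i * x⁻¹, ?_⟩
  have := map_lift' (MulAut.conj x).toMonoidHom g w
  simpa using this.symm

theorem continuous_word {G : Type u} [Group G] [TopologicalSpace G] [IsTopologicalGroup G]
    {k : ℕ} (w : FreeGroup (Fin k)) : Continuous (fun g : Fin k → G => FreeGroup.lift g w) := by
  induction w using FreeGroup.induction_on with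
  | C1 => simpa using continuous_const
  | of i => simpa using continuous_apply i
  | inv_of i h =>
    have h2 : (fun g : Fin k → G => FreeGroup.lift g (FreeGroup.of i)⁻¹) =
        fun g : Fin k → G => (g i)⁻¹ := by
      funext g; simp
    have h3 : Continuous (fun g : Fin k → G => (g i)⁻¹) := (continuous_apply i).inv
    rw [← h2] at h3
    exact h3
  | mul x y hx hy =>
    simp only [map_mul]
    exact hx.mul hy

/-- The conjugation action on the values. -/
@[reducible] def conjAct {G : Type u} [Group G] {k : ℕ} (w : FreeGroup (Fin k)) :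
    MulAction G (wordValues w G) where
  smul x v := ⟨x * v.1 * x⁻¹, conj_mem w v.2 x⟩
  one_smul v := by
    apply Subtype.ext
    change 1 * v.1 * 1⁻¹ = v.1
    group
  mul_smul x y v := by
    apply Subtype.ext
    change x * y * v.1 * (x * y)⁻¹ = x * (y * v.1 * y⁻¹) * x⁻¹
    group

theorem con (hUNI : S_UNI.{u}) (hABS : S_ABS.{u}) : S_CON.{u} := by
  intro G _ _ _ _ _ _ A N _ _ hAc hNo hAb hnil k w hfin
  classical
  -- marginality
  obtain ⟨U, hUn, hUo, hU⟩ := hUNI G k G (fun g => FreeGroup.lift g w) (continuous_word w) hfin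
  -- the centralizer of the values
  let act : MulAction G (wordValues w G) := conjAct w
  have hfinV : Finite (wordValues w G) := hfin
  let φ : G →* Equiv.Perm (wordValues w G) := MulAction.toPermHom G (wordValues w G)
  have hφ : φ.ker.FiniteIndex := Subgroup.finiteIndex_ker φ
  have hcomm : ∀ n ∈ φ.ker, ∀ v ∈ wordValues w G, n * v = v * n := by
    intro n hn v hv
    have h1 : φ n = 1 := hn
    have h2 := DFunLike.congr_fun h1 (⟨v, hv⟩ : wordValues w G)
    have h3 : n * v * n⁻¹ = v := congrArg Subtype.val h2
    exact mul_inv_eq_iff_eq_mul.1 h3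
  have hUf : U.FiniteIndex := by
    have : Finite (G ⧸ U) := U.quotient_finite_of_isOpen hUo
    exact U.finiteIndex_of_finite_quotient
  have hNf : N.FiniteIndex := by
    have : Finite (G ⧸ N) := N.quotient_finite_of_isOpen hNo
    exact N.finiteIndex_of_finite_quotient
  let K : Subgroup G := U ⊓ N ⊓ φ.ker
  have hKn : K.Normal := inferInstance
  have hKf : K.FiniteIndex := inferInstance
  have hKq : Finite (G ⧸ K) := inferInstance
  let T : Set G := Set.range (Quotient.out : G ⧸ K → G)
  have hT : T.Finite := Set.finite_range _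
  let G0 : Subgroup G := Subgroup.closure T
  have hG0 : Group.FG G0 := (Group.fg_iff_subgroup_fg G0).2 ⟨hT.toFinset, by simp [G0]⟩
  have hrep : ∀ g : G, ∃ t ∈ G0, ∃ κ ∈ K, g = t * κ := by
    intro g
    refine ⟨(Quotient.out (g : G ⧸ K)), Subgroup.subset_closure ⟨_, rfl⟩,
      (Quotient.out (g : G ⧸ K))⁻¹ * g, ?_, by group⟩
    have : ((Quotient.out (g : G ⧸ K) : G) : G ⧸ K) = (g : G ⧸ K) := Quotient.out_eq' _
    exact QuotientGroup.eq.1 this
  let N0 : Subgroup G0 := K.subgroupOf G0
  have hN0n : N0.Normal := inferInstance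
  let A0 : Subgroup N0 := A.comap (G0.subtype.comp N0.subtype)
  have hA0n : A0.Normal := inferInstance
  have hidx : N0.index ≠ 0 := (inferInstance : N0.FiniteIndex).index_ne_zero
  have hmemN : ∀ x : N0, ((x : G0) : G) ∈ N := fun x =>
    (Subgroup.mem_subgroupOf.1 x.2).1.2
  -- nilpotency
  let ψ : N0 →* N.map (QuotientGroup.mk' A) :=
    ((QuotientGroup.mk' A).comp (G0.subtype.comp N0.subtype)).codRestrict
      (N.map (QuotientGroup.mk' A)) (fun x => ⟨_, hmemN x, rfl⟩)
  have hker : ψ.ker = A0 := by
    ext x
    rw [MonoidHom.mem_ker, Subgroup.mem_comap]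
    constructor
    · intro h
      have h1 := congrArg Subtype.val h
      exact (QuotientGroup.eq_one_iff _).1 h1
    · intro h
      apply Subtype.ext
      exact (QuotientGroup.eq_one_iff _).2 h
  have hnil0 : Group.IsNilpotent (N0 ⧸ A0) := by
    have h1 : Group.IsNilpotent (N0 ⧸ ψ.ker) :=
      Group.nilpotent_of_mulEquiv (QuotientGroup.quotientKerEquivRange ψ).symm
    exact Group.nilpotent_of_mulEquiv (QuotientGroup.quotientMulEquivOfEq hker)
  have hsub : ∀ g : Fin k → G0, ((FreeGroup.lift g w : G0) : G) =
      FreeGroup.lift (fun i => ((g i : G0) : G)) w := fun g => map_lift' G0.subtype g w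
  have hmem : ∀ v : G0, v ∈ wordValues w G0 → (v : G) ∈ wordValues w G := by
    rintro _ ⟨g, rfl⟩
    exact ⟨_, (hsub g).symm⟩
  have hverb := hABS G0 k w N0 A0 hidx
    (by
      intro a ha b hb
      apply Subtype.ext
      apply Subtype.ext
      exact hAb _ ha _ hb)
    hnil0
    (by
      intro g u hu
      apply Subtype.ext
      rw [hsub, hsub]
      exact hU (fun i => (g i : G)) (fun i => (u i : G))
        (fun i => (Subgroup.mem_subgroupOf.1 (hu i)).1.1))
    (by
      apply Set.Finite.of_finite_image (f := (Subtype.val : G0 → G)) _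
        Subtype.val_injective.injOn
      apply hfin.subset
      rintro _ ⟨v, hv, rfl⟩
      exact hmem v hv)
    (by
      intro n hn v hv
      apply Subtype.ext
      exact hcomm _ (Subgroup.mem_subgroupOf.1 hn).2 _ (hmem v hv))
  have hle : verbal w G ≤ (verbal w G0).map G0.subtype := by
    unfold verbal
    rw [Subgroup.closure_le]
    rintro _ ⟨g, rfl⟩
    choose t ht κ hκ hg using fun i => hrep (g i)
    have h1 : (FreeGroup.lift g w : G) = FreeGroup.lift t w := by
      have h2 := hU t κ (fun i => (hκ i).1.1)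
      have h3 : (fun i => t i * κ i) = g := by funext i; exact (hg i).symm
      rw [h3] at h2
      exact h2
    refine ⟨FreeGroup.lift (fun i => (⟨t i, ht i⟩ : G0)) w,
      Subgroup.subset_closure ⟨_, rfl⟩, ?_⟩
    change ((FreeGroup.lift (fun i => (⟨t i, ht i⟩ : G0)) w : G0) : G) = _
    rw [hsub]
    exact h1.symm
  refine Set.Finite.subset ?_ hle
  rw [Subgroup.coe_map]
  exact hverb.image _

end Pool.Agent.Helper33.CN
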