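import Pool.Agent.Helper40.CN.Spec

/-!
Part RED: normal form of the hypothesis.
-/

set_option autoImplicit false

universe u

open Set Topology

namespace Pool.Agent.Helper33.CN

open Pool.Agent.Helper40.CN

theorem lcs_normal {W : Type u} [Group W] (N : Subgroup W) [N.Normal] :
    ∀ n, (N.lowerCentralSeries n).Normal
  | 0 => by rw [Subgroup.lowerCentralSeries_zero]; infer_instance
  | n + 1 => by
    have := lcs_normal N n
    rw [Subgroup.lowerCentralSeries_succ]
    infer_instance

theorem lcs_mono {W : Type u} [Group W] {N H : Subgroup W} (h : N ≤ H) :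
    ∀ n, N.lowerCentralSeries n ≤ H.lowerCentralSeries n
  | 0 => h
  | n + 1 => by
    rw [Subgroup.lowerCentralSeries_succ, Subgroup.lowerCentralSeries_succ]
    exact Subgroup.commutator_mono (lcs_mono h n) h

theorem red : S_RED.{u} := by
  intro G _ _ _ _ _ _ hG
  obtain ⟨H, A, hA, hHo, hAc, hAb, hnil⟩ := hG
  have hHc : IsClosed (H : Set G) := H.isClosed_of_isOpen hHo
  have hfin : Finite (G ⧸ H) := H.quotient_finite_of_isOpen hHo
  have hfi : H.FiniteIndex := H.finiteIndex_of_finite_quotient
  have hNc : IsClosed (H.normalCore : Set G) := H.normalCore_isClosed hHc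
  have hNo : IsOpen (H.normalCore : Set G) := H.normalCore.isOpen_of_isClosed_of_finiteIndex hNc
  obtain ⟨c, hc⟩ := Subgroup.nilpotent_iff_lowerCentralSeries.1 hnil
  have hlc : (⊤ : Subgroup H).lowerCentralSeries c ≤ A := by
    have h1 := Subgroup.map_lowerCentralSeries (⊤ : Subgroup H) (QuotientGroup.mk' A) c
    have h2 : (⊤ : Subgroup H).map (QuotientGroup.mk' A) = ⊤ := by
      rw [← MonoidHom.range_eq_map, MonoidHom.range_eq_top]
      exact QuotientGroup.mk'_surjective A
    rw [h2, hc, Subgroup.map_eq_bot_iff, QuotientGroup.ker_mk'] at h1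
    exact h1
  let N := H.normalCore
  have hNn : N.Normal := H.normalCore_normal
  let C := N.lowerCentralSeries c
  have hCn : C.Normal := lcs_normal N c
  have hCA : C ≤ A.map H.subtype := by
    refine (lcs_mono H.normalCore_le c).trans ?_
    rw [← Subgroup.top_subtype_lowerCentralSeries]
    exact Subgroup.map_mono hlc
  have hAcl : IsClosed ((A.map H.subtype : Subgroup G) : Set G) := by
    rw [Subgroup.coe_map]
    exact (hHc.isClosedEmbedding_subtypeVal.isClosedMap) _ hAc
  have hle : C.topologicalClosure ≤ A.map H.subtype := C.topologicalClosure_minimal hCA hAcl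
  have hn : C.topologicalClosure.Normal := Subgroup.is_normal_topologicalClosure C
  refine ⟨C.topologicalClosure, N, hn, hNn, C.isClosed_topologicalClosure, hNo, ?_, ?_⟩
  · intro a ha b hb
    obtain ⟨a', ha', rfl⟩ := hle ha
    obtain ⟨b', hb', rfl⟩ := hle hb
    rw [← map_mul, ← map_mul, hAb a' ha' b' hb']
  · rw [Subgroup.isNilpotent_iff_lowerCentralSeries]
    refine ⟨c, ?_⟩
    rw [← Subgroup.map_lowerCentralSeries, Subgroup.map_eq_bot_iff, QuotientGroup.ker_mk']
    exact C.le_topologicalClosure

end Pool.Agent.Helper33.CN
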